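import Mathlib

/-!
For `r = m ^ 2` (`m ≥ 2`) the equation `f (∑_{j < r} f (x - j)) = x` has a continuum of
continuous strictly increasing solutions: conjugates `f = H ∘ (affine solution) ∘ H⁻¹`, where `H`
is a homeomorphism of the line that commutes with integer translations and satisfies
`H t = P n + (w n / m) * (H (m ^ 2 * t) - m * n)` for `n ≤ m * t ≤ n + 1`.
-/

open Finset

namespace Pool.Agent.Lib.P39cb5d

/-- indicator of `n ≡ 1 mod m` -/
noncomputable def ee (m : ℕ) (n : ℤ) : ℝ := if n % (m : ℤ) = 1 then 1 else 0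

/-- cumulative weights -/
noncomputable def PP (m : ℕ) (θ : ℝ) (n : ℤ) : ℝ := (n : ℝ) / m + θ / m * ee m n

/-- weights -/
noncomputable def ww (m : ℕ) (θ : ℝ) (n : ℤ) : ℝ := PP m θ (n + 1) - PP m θ n

section basics

variable {m : ℕ} {θ : ℝ}

lemma ee_nonneg (n : ℤ) : 0 ≤ ee m n := by
  unfold ee; split_ifs <;> norm_num

lemma ee_le_one (n : ℤ) : ee m n ≤ 1 := by
  unfold ee; split_ifs <;> norm_num

lemma ee_add (n : ℤ) : ee m (n + m) = ee m n := by
  unfold ee; simp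

lemma PP_add (hm : 2 ≤ m) (n : ℤ) : PP m θ (n + m) = PP m θ n + 1 := by
  have hm0 : (m : ℝ) ≠ 0 := by positivity
  unfold PP
  rw [ee_add]
  push_cast
  field_simp
  ring

lemma ww_add (hm : 2 ≤ m) (n : ℤ) : ww m θ (n + m) = ww m θ n := by
  unfold ww
  have : n + (m : ℤ) + 1 = (n + 1) + m := by ring
  rw [this, PP_add hm, PP_add hm]
  ring

lemma PP_zero (_hm : 2 ≤ m) : PP m θ 0 = 0 := by
  unfold PP ee
  simp

lemma PP_add_mul (hm : 2 ≤ m) (n k : ℤ) : PP m θ (n + m * k) = PP m θ n + k := by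
  induction k using Int.induction_on with
  | zero => simp
  | succ k ih =>
    have : n + (m : ℤ) * ((k : ℤ) + 1) = (n + m * k) + m := by ring
    rw [this, PP_add hm, ih]; push_cast; ring
  | pred k ih =>
    have h2 := PP_add (θ := θ) hm (n + (m : ℤ) * (-(k : ℤ) - 1))
    have : n + (m : ℤ) * (-(k : ℤ) - 1) + m = n + m * (-(k : ℤ)) := by ring
    rw [this, ih] at h2
    push_cast at h2 ⊢
    linarith

lemma ww_add_mul (hm : 2 ≤ m) (n k : ℤ) : ww m θ (n + m * k) = ww m θ n := by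
  unfold ww
  have : n + (m : ℤ) * k + 1 = (n + 1) + m * k := by ring
  rw [this, PP_add_mul hm, PP_add_mul hm]
  ring

lemma ww_bounds (hm : 2 ≤ m) (n : ℤ) :
    (1 - |θ|) / m ≤ ww m θ n ∧ ww m θ n ≤ (1 + |θ|) / m := by
  have hm0 : (0 : ℝ) < m := by positivity
  have e1 := ee_nonneg (m := m) n
  have e2 := ee_le_one (m := m) n
  have e3 := ee_nonneg (m := m) (n + 1)
  have e4 := ee_le_one (m := m) (n + 1)
  have key : ww m θ n = (1 + θ * (ee m (n + 1) - ee m n)) / m := by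
    unfold ww PP
    push_cast
    field_simp
    ring
  rw [key]
  have h1 : |θ * (ee m (n + 1) - ee m n)| ≤ |θ| := by
    rw [abs_mul]
    have : |ee m (n + 1) - ee m n| ≤ 1 := by
      rw [abs_le]; constructor <;> linarith
    calc |θ| * |ee m (n + 1) - ee m n| ≤ |θ| * 1 :=
          mul_le_mul_of_nonneg_left this (abs_nonneg _)
      _ = |θ| := mul_one _
  rw [abs_le] at h1
  constructor
  · apply div_le_div_of_nonneg_right _ hm0.le
    linarith [h1.1]
  · apply div_le_div_of_nonneg_right _ hm0.le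
    linarith [h1.2]

lemma ww_pos (hm : 2 ≤ m) (hθ : |θ| < 1) (n : ℤ) : 0 < ww m θ n := by
  have h := (ww_bounds (θ := θ) hm n).1
  have hm0 : (0 : ℝ) < m := by positivity
  have : 0 < (1 - |θ|) / m := div_pos (by linarith) hm0
  linarith

lemma PP_strictMono (hm : 2 ≤ m) (hθ : |θ| < 1) : StrictMono (PP m θ) := by
  apply strictMono_int_of_lt_succ
  intro n
  have := ww_pos hm hθ n
  unfold ww at this
  linarith

end basics

/-- contraction coefficient at `t` -/
noncomputable def cc (m : ℕ) (θ : ℝ) (t : ℝ) : ℝ := ww m θ ⌊(m : ℝ) * t⌋ / m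

/-- the source term at `t` -/
noncomputable def gg (m : ℕ) (θ : ℝ) (t : ℝ) : ℝ :=
  PP m θ ⌊(m : ℝ) * t⌋ + ww m θ ⌊(m : ℝ) * t⌋ * (m * t - ⌊(m : ℝ) * t⌋) - t

/-- terms of the series -/
noncomputable def term (m : ℕ) (θ : ℝ) (t : ℝ) (k : ℕ) : ℝ :=
  (∏ i ∈ range k, cc m θ ((m : ℝ) ^ (2 * i) * t)) * gg m θ ((m : ℝ) ^ (2 * k) * t)

/-- the periodic part -/
noncomputable def W (m : ℕ) (θ : ℝ) (t : ℝ) : ℝ := ∑' k, term m θ t k

/-- the homeomorphism -/
noncomputable def H (m : ℕ) (θ : ℝ) (t : ℝ) : ℝ := t + W m θ t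

section constr

variable {m : ℕ} {θ : ℝ}

/-- the contraction ratio -/
noncomputable def rho (m : ℕ) (θ : ℝ) : ℝ := (1 + |θ|) / (m : ℝ) ^ 2

lemma rho_pos (hm : 2 ≤ m) : 0 < rho m θ := by
  unfold rho
  have hm0 : (0 : ℝ) < m := by positivity
  have := abs_nonneg θ
  positivity

lemma rho_lt (hm : 2 ≤ m) (hθ : |θ| < 1) : rho m θ < 1 / 2 := by
  unfold rho
  have hm0 : (2 : ℝ) ≤ m := by exact_mod_cast hm
  rw [div_lt_div_iff₀ (by positivity) (by norm_num)]
  nlinarith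

lemma cc_nonneg (hm : 2 ≤ m) (hθ : |θ| < 1) (t : ℝ) : 0 ≤ cc m θ t := by
  unfold cc
  have := ww_pos hm hθ ⌊(m : ℝ) * t⌋
  positivity

lemma cc_le (hm : 2 ≤ m) (t : ℝ) : cc m θ t ≤ rho m θ := by
  unfold cc rho
  have hm0 : (0 : ℝ) < m := by positivity
  have := (ww_bounds (θ := θ) hm ⌊(m : ℝ) * t⌋).2
  calc ww m θ ⌊(m : ℝ) * t⌋ / m ≤ ((1 + |θ|) / m) / m :=
        div_le_div_of_nonneg_right this hm0.le
    _ = (1 + |θ|) / (m : ℝ) ^ 2 := by field_simp

lemma gg_bound (hm : 2 ≤ m) (hθ : |θ| < 1) (t : ℝ) : |gg m θ t| ≤ 3 := by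
  have hm0 : (0 : ℝ) < m := by positivity
  have hm2 : (2 : ℝ) ≤ m := by exact_mod_cast hm
  have hf1 := Int.floor_le ((m : ℝ) * t)
  have hf2 := (Int.lt_floor_add_one ((m : ℝ) * t)).le
  have hw := ww_bounds (θ := θ) hm ⌊(m : ℝ) * t⌋
  have hwp := ww_pos hm hθ ⌊(m : ℝ) * t⌋
  have hwu : ww m θ ⌊(m : ℝ) * t⌋ ≤ 1 := by
    refine hw.2.trans ?_
    rw [div_le_one hm0]
    linarith
  unfold gg
  set n := ⌊(m : ℝ) * t⌋ with hn
  have hP : PP m θ n - t = ((n : ℝ) - m * t) / m + θ / m * ee m n := by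
    unfold PP
    field_simp
    ring
  have h1 : |((n : ℝ) - m * t) / m| ≤ 1 := by
    rw [abs_div, abs_of_pos hm0, div_le_one hm0, abs_le]
    constructor <;> linarith
  have h2 : |θ / m * ee m n| ≤ 1 := by
    rw [abs_mul, abs_div, abs_of_pos hm0]
    have : |ee m n| ≤ 1 := by
      rw [abs_of_nonneg (ee_nonneg n)]; exact ee_le_one n
    have h3 : |θ| / m ≤ 1 := by
      rw [div_le_one hm0]; linarith
    have h4 : 0 ≤ |θ| / m := by positivity
    nlinarith [abs_nonneg (ee m n)]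
  have h3 : |ww m θ n * (m * t - n)| ≤ 1 := by
    rw [abs_mul, abs_of_pos hwp]
    have : |(m : ℝ) * t - n| ≤ 1 := by
      rw [abs_le]; constructor <;> linarith
    nlinarith [abs_nonneg ((m : ℝ) * t - n)]
  have : PP m θ n + ww m θ n * (m * t - n) - t
      = ((n : ℝ) - m * t) / m + θ / m * ee m n + ww m θ n * (m * t - n) := by
    rw [← hP]; ring
  rw [this]
  calc |((n : ℝ) - m * t) / m + θ / m * ee m n + ww m θ n * (m * t - n)|
      ≤ |((n : ℝ) - m * t) / m + θ / m * ee m n| + |ww m θ n * (m * t - n)| := abs_add_le _ _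
    _ ≤ |((n : ℝ) - m * t) / m| + |θ / m * ee m n| + |ww m θ n * (m * t - n)| := by
        gcongr; exact abs_add_le _ _
    _ ≤ 3 := by linarith

lemma term_bound (hm : 2 ≤ m) (hθ : |θ| < 1) (t : ℝ) (k : ℕ) :
    |term m θ t k| ≤ 3 * rho m θ ^ k := by
  unfold term
  rw [abs_mul, Finset.abs_prod]
  have h1 : ∏ i ∈ range k, |cc m θ ((m : ℝ) ^ (2 * i) * t)| ≤ rho m θ ^ k := by
    calc ∏ i ∈ range k, |cc m θ ((m : ℝ) ^ (2 * i) * t)| ≤ ∏ _i ∈ range k, rho m θ := by
          apply Finset.prod_le_prod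
          · intro i _; exact abs_nonneg _
          · intro i _
            rw [abs_of_nonneg (cc_nonneg hm hθ _)]
            exact cc_le hm _
      _ = rho m θ ^ k := by simp
  have h2 := gg_bound hm hθ ((m : ℝ) ^ (2 * k) * t)
  have h3 : 0 ≤ rho m θ ^ k := pow_nonneg (rho_pos hm).le k
  calc (∏ i ∈ range k, |cc m θ ((m : ℝ) ^ (2 * i) * t)|) * |gg m θ ((m : ℝ) ^ (2 * k) * t)|
      ≤ rho m θ ^ k * 3 := by
        apply mul_le_mul h1 h2 (abs_nonneg _) h3
    _ = 3 * rho m θ ^ k := by ring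

lemma summable_geo (hm : 2 ≤ m) (hθ : |θ| < 1) : Summable (fun k => 3 * rho m θ ^ k) := by
  apply Summable.mul_left
  apply summable_geometric_of_lt_one (rho_pos hm).le
  linarith [rho_lt hm hθ]

lemma summable_term (hm : 2 ≤ m) (hθ : |θ| < 1) (t : ℝ) : Summable (term m θ t) := by
  apply Summable.of_norm_bounded (summable_geo hm hθ)
  intro k
  rw [Real.norm_eq_abs]
  exact term_bound hm hθ t k

lemma W_bound (hm : 2 ≤ m) (hθ : |θ| < 1) (t : ℝ) : |W m θ t| ≤ 6 := by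
  unfold W
  have h1 : ‖∑' k, term m θ t k‖ ≤ ∑' k, 3 * rho m θ ^ k := by
    apply tsum_of_norm_bounded (summable_geo hm hθ).hasSum
    intro k
    rw [Real.norm_eq_abs]
    exact term_bound hm hθ t k
  rw [Real.norm_eq_abs] at h1
  refine h1.trans ?_
  rw [tsum_mul_left, tsum_geometric_of_lt_one (rho_pos hm).le (by linarith [rho_lt hm hθ])]
  have h2 := rho_lt hm hθ
  have : (1 - rho m θ)⁻¹ ≤ 2 := by
    rw [inv_le_comm₀ (by linarith) (by norm_num)]
    linarith
  linarith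

lemma term_succ (t : ℝ) (k : ℕ) :
    term m θ t (k + 1) = cc m θ t * term m θ ((m : ℝ) ^ 2 * t) k := by
  unfold term
  rw [Finset.prod_range_succ']
  simp only [mul_zero, pow_zero, one_mul]
  have e1 : ∀ i : ℕ, (m : ℝ) ^ (2 * (i + 1)) * t = (m : ℝ) ^ (2 * i) * ((m : ℝ) ^ 2 * t) := by
    intro i; ring
  simp only [e1]
  ring

lemma W_eq (hm : 2 ≤ m) (hθ : |θ| < 1) (t : ℝ) :
    W m θ t = gg m θ t + cc m θ t * W m θ ((m : ℝ) ^ 2 * t) := by
  unfold W
  rw [(summable_term hm hθ t).tsum_eq_zero_add]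
  congr 1
  · simp [term]
  · simp only [term_succ]
    rw [tsum_mul_left]

lemma H_eq (hm : 2 ≤ m) (hθ : |θ| < 1) (t : ℝ) :
    H m θ t = PP m θ ⌊(m : ℝ) * t⌋
      + ww m θ ⌊(m : ℝ) * t⌋ / m * (H m θ ((m : ℝ) ^ 2 * t) - m * ⌊(m : ℝ) * t⌋) := by
  have hm0 : (m : ℝ) ≠ 0 := by positivity
  unfold H
  rw [W_eq hm hθ t]
  unfold gg cc
  field_simp
  ring

lemma floor_shift (n : ℤ) (t : ℝ) : ⌊(m : ℝ) * (t + n)⌋ = ⌊(m : ℝ) * t⌋ + m * n := by
  rw [mul_add]
  have : (m : ℝ) * (n : ℝ) = (((m : ℤ) * n : ℤ) : ℝ) := by push_cast; ring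
  rw [this, Int.floor_add_intCast]

lemma cc_shift (hm : 2 ≤ m) (n : ℤ) (t : ℝ) : cc m θ (t + n) = cc m θ t := by
  unfold cc
  rw [floor_shift, ww_add_mul hm]

lemma gg_shift (hm : 2 ≤ m) (n : ℤ) (t : ℝ) : gg m θ (t + n) = gg m θ t := by
  unfold gg
  rw [floor_shift, ww_add_mul hm, PP_add_mul hm]
  push_cast
  ring

lemma term_shift (hm : 2 ≤ m) (n : ℤ) (t : ℝ) (k : ℕ) : term m θ (t + n) k = term m θ t k := by
  have e1 : ∀ i : ℕ, (m : ℝ) ^ (2 * i) * (t + n)
      = (m : ℝ) ^ (2 * i) * t + (((m : ℤ) ^ (2 * i) * n : ℤ) : ℝ) := by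
    intro i; push_cast; ring
  unfold term
  simp only [e1]
  rw [gg_shift hm]
  congr 1
  apply Finset.prod_congr rfl
  intro i _
  rw [cc_shift hm]

lemma H_shift (hm : 2 ≤ m) (n : ℤ) (t : ℝ) : H m θ (t + n) = H m θ t + n := by
  unfold H W
  simp only [term_shift hm]
  ring

lemma H_zero (hm : 2 ≤ m) : H m θ 0 = 0 := by
  unfold H W
  have : ∀ k, term m θ 0 k = 0 := by
    intro k
    unfold term
    have : gg m θ ((m : ℝ) ^ (2 * k) * 0) = 0 := by
      unfold gg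
      simp [PP_zero hm]
    rw [this, mul_zero]
  simp [this]

lemma H_int (hm : 2 ≤ m) (n : ℤ) : H m θ n = n := by
  have := H_shift (θ := θ) hm n 0
  rw [H_zero hm] at this
  simpa using this

/-- The self-similarity of `H` on closed cells. -/
lemma H_cell (hm : 2 ≤ m) (hθ : |θ| < 1) (n : ℤ) (t : ℝ) (h1 : (n : ℝ) ≤ m * t)
    (h2 : (m : ℝ) * t ≤ n + 1) :
    H m θ t = PP m θ n + ww m θ n / m * (H m θ ((m : ℝ) ^ 2 * t) - m * n) := by
  have hm0 : (m : ℝ) ≠ 0 := by positivity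
  rcases h2.lt_or_eq with h | h
  · have : ⌊(m : ℝ) * t⌋ = n := by
      rw [Int.floor_eq_iff]; exact ⟨h1, h⟩
    have e := H_eq (θ := θ) hm hθ t
    rw [this] at e
    exact e
  · have hfl : ⌊(m : ℝ) * t⌋ = n + 1 := by
      rw [h]
      have : (n : ℝ) + 1 = ((n + 1 : ℤ) : ℝ) := by push_cast; ring
      rw [this, Int.floor_intCast]
    have hv : H m θ ((m : ℝ) ^ 2 * t) = m * (n + 1) := by
      have : (m : ℝ) ^ 2 * t = (((m : ℤ) * (n + 1) : ℤ) : ℝ) := by
        push_cast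
        rw [← h]; ring
      rw [this, H_int hm]
      push_cast; ring
    have e := H_eq (θ := θ) hm hθ t
    rw [hfl, hv] at e
    rw [e, hv]
    unfold ww
    push_cast
    field_simp
    ring

/-- increments on the mesh -/
lemma H_incr (hm : 2 ≤ m) (hθ : |θ| < 1) (k : ℕ) : ∀ N : ℤ,
    0 < H m θ (((N : ℝ) + 1) / (m : ℝ) ^ (2 * k)) - H m θ ((N : ℝ) / (m : ℝ) ^ (2 * k)) ∧
    H m θ (((N : ℝ) + 1) / (m : ℝ) ^ (2 * k)) - H m θ ((N : ℝ) / (m : ℝ) ^ (2 * k))
      ≤ rho m θ ^ k := by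
  have hm0 : (0 : ℝ) < m := by positivity
  induction k with
  | zero =>
    intro N
    have e1 : H m θ ((N : ℝ) + 1) = N + 1 := by
      have : (N : ℝ) + 1 = ((N + 1 : ℤ) : ℝ) := by push_cast; ring
      rw [this, H_int hm]
    have e2 : H m θ (N : ℝ) = N := H_int hm N
    simp [e1, e2]
  | succ k ih =>
    intro N
    have hM : (0 : ℤ) < (m : ℤ) ^ (2 * k + 1) := by positivity
    have hMR : (0 : ℝ) < (m : ℝ) ^ (2 * k + 1) := by positivity
    set n : ℤ := N / (m : ℤ) ^ (2 * k + 1) with hn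
    have a1 : n * (m : ℤ) ^ (2 * k + 1) ≤ N := Int.ediv_mul_le N hM.ne'
    have a2 : N + 1 ≤ (n + 1) * (m : ℤ) ^ (2 * k + 1) := by
      have := Int.lt_ediv_add_one_mul_self N hM
      linarith
    have a1' : (n : ℝ) * (m : ℝ) ^ (2 * k + 1) ≤ N := by exact_mod_cast a1
    have a2' : (N : ℝ) + 1 ≤ ((n : ℝ) + 1) * (m : ℝ) ^ (2 * k + 1) := by exact_mod_cast a2
    have e0 : ∀ x : ℝ, (m : ℝ) * (x / (m : ℝ) ^ (2 * (k + 1))) = x / (m : ℝ) ^ (2 * k + 1) := by
      intro x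
      rw [show 2 * (k + 1) = (2 * k + 1) + 1 by ring, pow_succ]
      field_simp
    have e2 : ∀ x : ℝ, (m : ℝ) ^ 2 * (x / (m : ℝ) ^ (2 * (k + 1))) = x / (m : ℝ) ^ (2 * k) := by
      intro x
      rw [show 2 * (k + 1) = (2 * k) + 2 by ring, pow_add]
      field_simp
    have c1 := H_cell (θ := θ) hm hθ n (((N : ℝ) + 1) / (m : ℝ) ^ (2 * (k + 1)))
      (by rw [e0, le_div_iff₀ hMR]; linarith) (by rw [e0, div_le_iff₀ hMR]; linarith)
    have c2 := H_cell (θ := θ) hm hθ n ((N : ℝ) / (m : ℝ) ^ (2 * (k + 1)))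
      (by rw [e0, le_div_iff₀ hMR]; linarith) (by rw [e0, div_le_iff₀ hMR]; linarith)
    rw [e2] at c1 c2
    have hd : H m θ (((N : ℝ) + 1) / (m : ℝ) ^ (2 * (k + 1)))
        - H m θ ((N : ℝ) / (m : ℝ) ^ (2 * (k + 1)))
        = ww m θ n / m * (H m θ (((N : ℝ) + 1) / (m : ℝ) ^ (2 * k))
          - H m θ ((N : ℝ) / (m : ℝ) ^ (2 * k))) := by
      rw [c1, c2]; ring
    rw [hd]
    obtain ⟨i1, i2⟩ := ih N
    have hw := ww_pos hm hθ n
    have hwr : ww m θ n / m ≤ rho m θ := by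
      have := (ww_bounds (θ := θ) hm n).2
      unfold rho
      calc ww m θ n / m ≤ ((1 + |θ|) / m) / m := div_le_div_of_nonneg_right this hm0.le
        _ = (1 + |θ|) / (m : ℝ) ^ 2 := by field_simp
    have hw' : 0 < ww m θ n / m := div_pos hw hm0
    refine ⟨mul_pos hw' i1, ?_⟩
    rw [pow_succ']
    exact mul_le_mul hwr i2 i1.le (rho_pos hm).le

/-- `H` is monotone. -/
lemma H_mono_aux (hm : 2 ≤ m) (hθ : |θ| < 1) (k : ℕ) : ∀ s t : ℝ, s ≤ t →
    H m θ s - H m θ t ≤ 12 * (2 * rho m θ) ^ k := by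
  have hm0 : (0 : ℝ) < m := by positivity
  induction k with
  | zero =>
    intro s t hst
    have h1 := abs_le.mp (W_bound (θ := θ) hm hθ s)
    have h2 := abs_le.mp (W_bound (θ := θ) hm hθ t)
    unfold H
    simp only [pow_zero, mul_one]
    linarith [h1.2, h2.1]
  | succ k ih =>
    have hr := rho_pos (θ := θ) hm
    have hB : 0 ≤ 12 * (2 * rho m θ) ^ k := by positivity
    -- same cell
    have same : ∀ (n : ℤ) (s t : ℝ), s ≤ t → (n : ℝ) ≤ m * s → (m : ℝ) * t ≤ n + 1 →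
        H m θ s - H m θ t ≤ rho m θ * (12 * (2 * rho m θ) ^ k) := by
      intro n s t hst h1 h2
      have hms : (m : ℝ) * s ≤ m * t := mul_le_mul_of_nonneg_left hst hm0.le
      have c1 := H_cell (θ := θ) hm hθ n s h1 (by linarith)
      have c2 := H_cell (θ := θ) hm hθ n t (by linarith) h2
      have hd : H m θ s - H m θ t
          = ww m θ n / m * (H m θ ((m : ℝ) ^ 2 * s) - H m θ ((m : ℝ) ^ 2 * t)) := by
        rw [c1, c2]; ring
      rw [hd]
      have hw := ww_pos hm hθ n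
      have hwr : ww m θ n / m ≤ rho m θ := by
        have := (ww_bounds (θ := θ) hm n).2
        unfold rho
        calc ww m θ n / m ≤ ((1 + |θ|) / m) / m := div_le_div_of_nonneg_right this hm0.le
          _ = (1 + |θ|) / (m : ℝ) ^ 2 := by field_simp
      have hw' : 0 < ww m θ n / m := div_pos hw hm0
      have hi := ih ((m : ℝ) ^ 2 * s) ((m : ℝ) ^ 2 * t) (by
        apply mul_le_mul_of_nonneg_left hst; positivity)
      calc ww m θ n / m * (H m θ ((m : ℝ) ^ 2 * s) - H m θ ((m : ℝ) ^ 2 * t))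
          ≤ ww m θ n / m * (12 * (2 * rho m θ) ^ k) := mul_le_mul_of_nonneg_left hi hw'.le
        _ ≤ rho m θ * (12 * (2 * rho m θ) ^ k) := mul_le_mul_of_nonneg_right hwr hB
    intro s t hst
    set n : ℤ := ⌊(m : ℝ) * s⌋ with hn
    set n' : ℤ := ⌊(m : ℝ) * t⌋ with hn'
    have hms : (m : ℝ) * s ≤ m * t := mul_le_mul_of_nonneg_left hst hm0.le
    have hnn : n ≤ n' := Int.floor_le_floor hms
    have f1 : (n : ℝ) ≤ m * s := Int.floor_le _
    have f2 : (m : ℝ) * s ≤ n + 1 := (Int.lt_floor_add_one _).le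
    have f3 : (n' : ℝ) ≤ m * t := Int.floor_le _
    have f4 : (m : ℝ) * t ≤ n' + 1 := (Int.lt_floor_add_one _).le
    have hgoal : rho m θ * (12 * (2 * rho m θ) ^ k) * 2 = 12 * (2 * rho m θ) ^ (k + 1) := by
      rw [pow_succ]; ring
    have hpos : 0 ≤ rho m θ * (12 * (2 * rho m θ) ^ k) := by positivity
    rcases hnn.eq_or_lt with h | h
    · have := same n s t hst f1 (by rw [h]; exact f4)
      linarith
    · -- different cells
      have q1 : (m : ℝ) * (((n : ℝ) + 1) / m) = n + 1 := by field_simp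
      have q2 : (m : ℝ) * ((n' : ℝ) / m) = n' := by field_simp
      have s1 := same n s (((n : ℝ) + 1) / m) (by rw [le_div_iff₀ hm0]; linarith) f1
        (by rw [q1])
      have s2 := same n' ((n' : ℝ) / m) t (by rw [div_le_iff₀ hm0]; linarith)
        (by rw [q2]) f4
      have v1 : H m θ (((n : ℝ) + 1) / m) = PP m θ (n + 1) := by
        have c := H_cell (θ := θ) hm hθ (n + 1) (((n : ℝ) + 1) / m) (by rw [q1]; push_cast; exact le_rfl)
          (by rw [q1]; push_cast; linarith)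
        have : (m : ℝ) ^ 2 * (((n : ℝ) + 1) / m) = (((m : ℤ) * (n + 1) : ℤ) : ℝ) := by
          push_cast; field_simp
        rw [this, H_int hm] at c
        rw [c]; push_cast; ring
      have v2 : H m θ ((n' : ℝ) / m) = PP m θ n' := by
        have c := H_cell (θ := θ) hm hθ n' ((n' : ℝ) / m) (by rw [q2])
          (by rw [q2]; linarith)
        have : (m : ℝ) ^ 2 * ((n' : ℝ) / m) = (((m : ℤ) * n' : ℤ) : ℝ) := by
          push_cast; field_simp
        rw [this, H_int hm] at c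
        rw [c]; push_cast; ring
      have v3 : PP m θ (n + 1) ≤ PP m θ n' := (PP_strictMono hm hθ).monotone (by omega)
      linarith

lemma H_mono (hm : 2 ≤ m) (hθ : |θ| < 1) : Monotone (H m θ) := by
  intro s t hst
  have hlim : Filter.Tendsto (fun k : ℕ => 12 * (2 * rho m θ) ^ k) Filter.atTop (nhds (12 * 0)) := by
    apply Filter.Tendsto.const_mul
    apply tendsto_pow_atTop_nhds_zero_of_lt_one
    · linarith [rho_pos (θ := θ) hm]
    · linarith [rho_lt hm hθ]
  rw [mul_zero] at hlim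
  have : H m θ s - H m θ t ≤ 0 :=
    ge_of_tendsto' hlim (fun k => H_mono_aux hm hθ k s t hst)
  linarith

lemma H_strictMono (hm : 2 ≤ m) (hθ : |θ| < 1) : StrictMono (H m θ) := by
  intro s t hst
  have hm1 : (1 : ℝ) < m := by
    have : (2 : ℝ) ≤ m := by exact_mod_cast hm
    linarith
  obtain ⟨k, hk⟩ := pow_unbounded_of_one_lt (2 / (t - s)) (show (1 : ℝ) < (m : ℝ) ^ 2 by nlinarith)
  rw [← pow_mul] at hk
  set M : ℝ := (m : ℝ) ^ (2 * k) with hM
  have hM0 : 0 < M := by positivity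
  have hts : 0 < t - s := by linarith
  have hk' : 2 < M * (t - s) := by
    rw [div_lt_iff₀ hts] at hk; linarith
  set N : ℤ := ⌊M * s⌋ + 1 with hN
  have a1 : M * s ≤ N := by
    have := (Int.lt_floor_add_one (M * s)).le
    rw [hN]; push_cast; exact this
  have a2 : (N : ℝ) ≤ M * s + 1 := by
    have := Int.floor_le (M * s)
    rw [hN]; push_cast; linarith
  have b1 : s ≤ (N : ℝ) / M := by rw [le_div_iff₀ hM0]; linarith
  have b2 : ((N : ℝ) + 1) / M ≤ t := by
    rw [div_le_iff₀ hM0]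
    nlinarith
  have i := (H_incr (θ := θ) hm hθ k N).1
  have m1 := H_mono (θ := θ) hm hθ b1
  have m2 := H_mono (θ := θ) hm hθ b2
  linarith

lemma H_continuous (hm : 2 ≤ m) (hθ : |θ| < 1) : Continuous (H m θ) := by
  rw [Metric.continuous_iff]
  intro x ε hε
  have hr0 := rho_pos (θ := θ) hm
  have hr1 := rho_lt (θ := θ) hm hθ
  obtain ⟨k, hk⟩ := exists_pow_lt_of_lt_one (show 0 < ε / 2 by linarith) (show rho m θ < 1 by linarith)
  set M : ℝ := (m : ℝ) ^ (2 * k) with hM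
  have hM0 : 0 < M := by positivity
  set N : ℤ := ⌊M * x⌋ with hN
  have f1 : (N : ℝ) ≤ M * x := Int.floor_le _
  have f2 : M * x < N + 1 := Int.lt_floor_add_one _
  have g1 : ((N : ℝ) - 1) / M < x := by rw [div_lt_iff₀ hM0]; linarith
  have g2 : x < ((N : ℝ) + 1) / M := by rw [lt_div_iff₀ hM0]; linarith
  refine ⟨min (x - ((N : ℝ) - 1) / M) (((N : ℝ) + 1) / M - x), ?_, ?_⟩
  · exact lt_min (by linarith) (by linarith)
  · intro y hy
    rw [Real.dist_eq] at hy ⊢
    have hy1 := lt_of_lt_of_le hy (min_le_left _ _)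
    have hy2 := lt_of_lt_of_le hy (min_le_right _ _)
    rw [abs_lt] at hy1 hy2
    have y1 : ((N : ℝ) - 1) / M ≤ y := by linarith [hy1.1]
    have y2 : y ≤ ((N : ℝ) + 1) / M := by linarith [hy2.2]
    have i1 := (H_incr (θ := θ) hm hθ k N).2
    have i2 := (H_incr (θ := θ) hm hθ k (N - 1)).2
    have e : (((N - 1 : ℤ) : ℝ) + 1) = N := by push_cast; ring
    have e' : (((N - 1 : ℤ) : ℝ)) = N - 1 := by push_cast; ring
    rw [e, e'] at i2
    rw [← hM] at i1 i2
    have mo := H_mono (θ := θ) hm hθ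
    have m1 := mo y1
    have m2 := mo y2
    have m3 := mo g1.le
    have m4 := mo g2.le
    rw [abs_lt]
    constructor <;> linarith

lemma H_surjective (hm : 2 ≤ m) (hθ : |θ| < 1) : Function.Surjective (H m θ) := by
  intro y
  have h1 : H m θ (⌊y⌋ : ℝ) ≤ y := by rw [H_int hm]; exact Int.floor_le y
  have h2 : y ≤ H m θ ((⌊y⌋ : ℝ) + 1) := by
    have : (⌊y⌋ : ℝ) + 1 = ((⌊y⌋ + 1 : ℤ) : ℝ) := by push_cast; ring
    rw [this, H_int hm]
    push_cast
    exact (Int.lt_floor_add_one y).le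
  have := intermediate_value_Icc (show (⌊y⌋ : ℝ) ≤ (⌊y⌋ : ℝ) + 1 by linarith)
    (H_continuous (θ := θ) hm hθ).continuousOn
  obtain ⟨x, _, hx⟩ := this ⟨h1, h2⟩
  exact ⟨x, hx⟩

/-- `H` as an order isomorphism -/
noncomputable def HI (hm : 2 ≤ m) (hθ : |θ| < 1) : ℝ ≃o ℝ :=
  StrictMono.orderIsoOfSurjective (H m θ) (H_strictMono hm hθ) (H_surjective hm hθ)

lemma HI_apply (hm : 2 ≤ m) (hθ : |θ| < 1) (x : ℝ) : HI hm hθ x = H m θ x := rfl

lemma HI_symm_sub (hm : 2 ≤ m) (hθ : |θ| < 1) (x : ℝ) (n : ℤ) :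
    (HI hm hθ).symm (x + n) = (HI hm hθ).symm x + n := by
  rw [OrderIso.symm_apply_eq, HI_apply, H_shift hm, ← HI_apply hm hθ, OrderIso.apply_symm_apply]

/-- counting -/
lemma sum_ee_block (hm : 2 ≤ m) (n : ℤ) : ∑ j ∈ range m, ee m (n - j) = 1 := by
  have hm0 : (0 : ℤ) < m := by positivity
  have h0 : 0 ≤ (n - 1) % (m : ℤ) := Int.emod_nonneg _ hm0.ne'
  have h1 : (n - 1) % (m : ℤ) < m := Int.emod_lt_of_pos _ hm0
  obtain ⟨j0, hj0⟩ := Int.eq_ofNat_of_zero_le h0
  have hj0m : j0 < m := by omega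
  rw [Finset.sum_eq_single j0]
  · unfold ee
    rw [if_pos]
    have : n - (j0 : ℤ) = 1 + m * ((n - 1) / m) := by
      have := Int.emod_add_mul_ediv (n - 1) m
      rw [hj0] at this
      linarith
    rw [this, Int.add_mul_emod_self_left]
    exact Int.emod_eq_of_lt (by norm_num) (by omega)
  · intro j hj hne
    unfold ee
    rw [if_neg]
    intro h
    apply hne
    have hjm : j < m := Finset.mem_range.mp hj
    -- (n - j) % m = 1 -> j = (n-1) % m
    have h2 : (n - 1) % (m : ℤ) = (j : ℤ) := by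
      have h3 := Int.emod_add_mul_ediv (n - j) m
      rw [h] at h3
      have h4 : n - 1 = j + m * ((n - j) / m) := by linarith
      rw [h4, Int.add_mul_emod_self_left]
      exact Int.emod_eq_of_lt (by positivity) (by exact_mod_cast hjm)
    rw [hj0] at h2
    exact_mod_cast h2.symm
  · intro h
    exact absurd (Finset.mem_range.mpr hj0m) h

lemma sum_ee (hm : 2 ≤ m) (K : ℕ) : ∀ n : ℤ, ∑ j ∈ range (m * K), ee m (n - j) = K := by
  induction K with
  | zero => intro n; simp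
  | succ K ih =>
    intro n
    rw [mul_add, mul_one, Finset.sum_range_add, ih n]
    have : ∀ x : ℕ, ee m (n - ((m * K + x : ℕ) : ℤ)) = ee m ((n - ((m * K : ℕ) : ℤ)) - x) := by
      intro x; congr 1; push_cast; ring
    simp only [this]
    rw [sum_ee_block hm]
    push_cast; ring

lemma sum_PP (hm : 2 ≤ m) (n : ℤ) :
    ∑ j ∈ range (m ^ 2), PP m θ (n - j) = m * n - m * ((m : ℝ) ^ 2 - 1) / 2 + θ := by
  have hm0 : (m : ℝ) ≠ 0 := by positivity
  unfold PP
  rw [Finset.sum_add_distrib, ← Finset.mul_sum, sq, sum_ee hm, ← Finset.sum_div]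
  have : ∀ K : ℕ, ∑ j ∈ range K, (((n - (j : ℤ) : ℤ)) : ℝ) = K * n - K * (K - 1) / 2 := by
    intro K
    induction K with
    | zero => simp
    | succ K ih => rw [Finset.sum_range_succ, ih]; push_cast; ring
  rw [this]
  push_cast
  field_simp

lemma sum_ww (hm : 2 ≤ m) (n : ℤ) : ∑ j ∈ range (m ^ 2), ww m θ (n - j) = m := by
  have : ∀ K : ℕ, ∑ j ∈ range K, ww m θ (n - j) = PP m θ (n + 1) - PP m θ (n + 1 - K) := by
    intro K
    induction K with
    | zero => simp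
    | succ K ih =>
      rw [Finset.sum_range_succ, ih]
      unfold ww
      have e1 : n - (K : ℤ) + 1 = n + 1 - K := by ring
      have e2 : n + 1 - ((K + 1 : ℕ) : ℤ) = n - K := by push_cast; ring
      rw [e1, e2]; ring
  rw [this]
  have h := PP_add_mul (θ := θ) hm (n + 1 - ((m ^ 2 : ℕ) : ℤ)) m
  have e : n + 1 - ((m ^ 2 : ℕ) : ℤ) + (m : ℤ) * (m : ℤ) = n + 1 := by push_cast; ring
  rw [e] at h
  rw [h]
  push_cast
  ring

/-- The key identity. -/
lemma key (hm : 2 ≤ m) (hθ : |θ| < 1) (Z : ℝ) :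
    ∑ j ∈ range (m ^ 2), H m θ ((Z - j) / m)
      = H m θ (m * Z) - m * ((m : ℝ) ^ 2 - 1) / 2 + θ := by
  have hm0 : (m : ℝ) ≠ 0 := by positivity
  set n : ℤ := ⌊Z⌋ with hn
  have f1 : (n : ℝ) ≤ Z := Int.floor_le _
  have f2 : Z ≤ n + 1 := (Int.lt_floor_add_one _).le
  have each : ∀ j ∈ range (m ^ 2), H m θ ((Z - j) / m)
      = PP m θ (n - j) + ww m θ (n - j) * ((H m θ (m * Z) - m * n) / m) := by
    intro j _
    have q : (m : ℝ) * ((Z - j) / m) = Z - j := by field_simp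
    have c := H_cell (θ := θ) hm hθ (n - j) ((Z - j) / m) (by rw [q]; push_cast; linarith)
      (by rw [q]; push_cast; linarith)
    have e : (m : ℝ) ^ 2 * ((Z - j) / m) = m * Z + ((-(m * j) : ℤ) : ℝ) := by
      push_cast; field_simp; ring
    rw [e, H_shift hm] at c
    rw [c]
    push_cast
    field_simp
    ring
  rw [Finset.sum_congr rfl each, Finset.sum_add_distrib, ← Finset.sum_mul, sum_ww hm, sum_PP hm]
  field_simp
  ring

end constr

/-- Existence of solutions with prescribed fixed point `p`. -/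
theorem exists_solution (m : ℕ) (hm : 2 ≤ m) (p : ℝ)
    (hp : |p - (m : ℝ) / 2| < 1 / ((m : ℝ) ^ 2 - 1)) :
    ∃ f : ℝ → ℝ, Continuous f ∧ StrictMono f ∧
      (∀ x : ℝ, f (∑ j ∈ Finset.range (m ^ 2), f (x - (j : ℝ))) = x) ∧ f p = p := by
  have hm2 : (2 : ℝ) ≤ m := by exact_mod_cast hm
  have hm0 : (0 : ℝ) < m := by positivity
  have hd : (0 : ℝ) < (m : ℝ) ^ 2 - 1 := by nlinarith
  set θ : ℝ := ((m : ℝ) / 2 - p) * ((m : ℝ) ^ 2 - 1) with hθdef
  have hθ : |θ| < 1 := by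
    rw [hθdef, abs_mul, abs_of_pos hd, abs_sub_comm]
    rw [lt_div_iff₀ hd] at hp
    exact hp
  have hpθ : (m : ℝ) ^ 2 * p - m * ((m : ℝ) ^ 2 - 1) / 2 + θ = p := by
    rw [hθdef]; ring
  set e := HI hm hθ with he
  have hsymm : ∀ (x : ℝ) (j : ℕ), e.symm (x - j) = e.symm x - j := by
    intro x j
    have := HI_symm_sub hm hθ x (-(j : ℤ))
    push_cast at this
    simpa [sub_eq_add_neg] using this
  refine ⟨fun x => p + H m θ (e.symm (x - p) / m), ?_, ?_, ?_, ?_⟩
  · have h1 := H_continuous (θ := θ) hm hθ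
    have h2 := e.symm.continuous
    fun_prop
  · intro x y hxy
    have h1 : e.symm (x - p) < e.symm (y - p) := e.symm.strictMono (by linarith)
    have h2 : e.symm (x - p) / m < e.symm (y - p) / m := div_lt_div_of_pos_right h1 hm0
    have h3 := H_strictMono (θ := θ) hm hθ h2
    simp only
    linarith
  · intro x
    set Z := e.symm (x - p) with hZ
    have h1 : ∀ j ∈ range (m ^ 2), (p + H m θ (e.symm (x - (j : ℝ) - p) / m))
        = p + H m θ ((Z - j) / m) := by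
      intro j _
      have : x - (j : ℝ) - p = (x - p) - j := by ring
      rw [this, hsymm]
    have h2 : ∑ j ∈ range (m ^ 2), (p + H m θ (e.symm (x - (j : ℝ) - p) / m))
        = p + H m θ (m * Z) := by
      rw [Finset.sum_congr rfl h1, Finset.sum_add_distrib, key hm hθ]
      simp only [sum_const, card_range, nsmul_eq_mul]
      push_cast
      linarith
    simp only
    rw [h2]
    have h3 : p + H m θ (m * Z) - p = e (m * Z) := by
      rw [he, HI_apply]; ring
    rw [h3, OrderIso.symm_apply_apply]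
    have h4 : (m : ℝ) * Z / m = Z := by field_simp
    rw [h4]
    have h5 : H m θ Z = e Z := by rw [he, HI_apply]
    rw [h5, hZ, OrderIso.apply_symm_apply]
    ring
  · have h0 : e.symm (p - p) = 0 := by
      rw [sub_self, OrderIso.symm_apply_eq, he, HI_apply, H_zero hm]
    simp only
    rw [h0, zero_div, H_zero hm, add_zero]

end Pool.Agent.Lib.P39cb5d
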